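import Pool.Agent.H24.RCN.Targets

/-!
MP_4d5ac9_nt, module KUM: Kummer extensions of CM fields with complex conjugation.
-/

set_option autoImplicit false

open NumberField Pool.Agent.H24.RCN

namespace Pool.Agent.H10.RCN.K

open Polynomial

/-- a root of unity has absolute value one -/
theorem nrm1 {w : ℂ} {n : ℕ} (hn : n ≠ 0) (h : ‖w‖ ^ n = 1) : ‖w‖ = 1 :=
  (pow_eq_one_iff_of_nonneg (norm_nonneg w) hn).1 h

theorem cinv {w : ℂ} (h : ‖w‖ = 1) : (starRingEnd ℂ) w = w⁻¹ := by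
  rw [Complex.inv_def, Complex.normSq_eq_norm_sq, h]
  simp

theorem aux {F L : Type} [Field F] [NumberField F] [IsCMField F] [Field L] [NumberField L]
    [Algebra F L] {κ : ℕ} {z β : F} {b : L} (hκ : κ.Prime) (hz : IsPrimitiveRoot z κ)
    (hβ : β * IsCMField.complexConj F β = 1) (H : Irreducible (X ^ κ - C β : F[X]))
    [IsSplittingField F L (X ^ κ - C β)] (hb : b ^ κ = algebraMap F L β) (hb0 : b ≠ 0)
    (J0 : L →+* L)
    (hJF : ∀ x : F, J0 (algebraMap F L x) = algebraMap F L (IsCMField.complexConj F x))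
    (hJb : J0 b = b⁻¹)
    (hext : ∀ (R : Type) [Field R] (f g : L →+* R),
      (∀ x : F, f (algebraMap F L x) = g (algebraMap F L x)) → f b = g b → ∀ x, f x = g x) :
    ∃ (σ : L ≃ₐ[F] L) (J : L ≃+* L), Ext F L κ σ J ∧ σ b = algebraMap F L z * b := by
  have hκ0 : κ ≠ 0 := hκ.ne_zero
  have : NeZero κ := ⟨hκ0⟩
  have hne : (primitiveRoots κ F).Nonempty := ⟨z, (mem_primitiveRoots hκ.pos).2 hz⟩
  obtain ⟨E, hE⟩ : ∃ E : Gal(L/F) ≃* Multiplicative (ZMod κ), E = autEquivZmod H L hz := ⟨_, rfl⟩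
  obtain ⟨σ, hσ⟩ : ∃ σ : L ≃ₐ[F] L, σ = E.symm (Multiplicative.ofAdd (1 : ZMod κ)) := ⟨_, rfl⟩
  have hσb : σ b = algebraMap F L z * b := by
    have h := autEquivZmod_symm_apply_natCast H L hb hz 1
    rw [Nat.cast_one, pow_one, Algebra.smul_def, ← hE] at h
    rw [hσ]
    exact h
  have hgen : ∀ τ : L ≃ₐ[F] L, τ ∈ Subgroup.zpowers σ := by
    intro τ
    refine ⟨((Multiplicative.toAdd (E τ)).val : ℤ), ?_⟩
    apply E.injective
    rw [hσ]
    simp only [zpow_natCast, map_pow, MulEquiv.apply_symm_apply]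
    rw [← ofAdd_nsmul, nsmul_eq_mul, ZMod.natCast_zmod_val, mul_one, ofAdd_toAdd]
  -- the conjugation
  have hJJ : ∀ x, J0 (J0 x) = x := by
    apply hext L (J0.comp J0) (RingHom.id L)
    · intro x
      simp only [RingHom.comp_apply, RingHom.id_apply, hJF, IsCMField.complexConj_apply_apply]
    · simp only [RingHom.comp_apply, RingHom.id_apply, hJb, map_inv₀, inv_inv]
  obtain ⟨J, hJ⟩ : ∃ J : L ≃+* L, ∀ x, J x = J0 x :=
    ⟨RingEquiv.ofBijective J0 ⟨J0.injective, fun x => ⟨J0 x, hJJ x⟩⟩, fun _ => rfl⟩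
  have hzc : IsCMField.complexConj F z = z⁻¹ := by
    obtain ⟨φ⟩ := (inferInstance : Nonempty (F →+* ℂ))
    apply φ.injective
    rw [IsCMField.complexEmbedding_complexConj, map_inv₀]
    apply cinv
    apply nrm1 hκ0
    rw [← norm_pow, ← map_pow, hz.pow_eq_one, map_one, norm_one]
  refine ⟨σ, J, ⟨isGalois_of_isSplittingField_X_pow_sub_C hne H L,
    finrank_of_isSplittingField_X_pow_sub_C hne H L, hgen, ?_, ?_⟩, hσb⟩
  · have h := hext L (J0.comp (σ : L →+* L)) ((σ : L →+* L).comp J0) ?_ ?_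
    · intro x
      rw [hJ, hJ]
      exact h x
    · intro x
      simp only [RingHom.comp_apply, RingHom.coe_coe, AlgEquiv.commutes, hJF]
    · simp only [RingHom.comp_apply, RingHom.coe_coe, hσb, hJb, map_mul, map_inv₀, hJF, hzc,
        mul_inv]
  · intro τ x
    rw [hJ]
    refine hext ℂ (τ.comp J0) ((starRingEnd ℂ).comp τ) ?_ ?_ x
    · intro y
      simp only [RingHom.comp_apply, hJF]
      exact IsCMField.complexEmbedding_complexConj F (τ.comp (algebraMap F L)) y
    · simp only [RingHom.comp_apply, hJb, map_inv₀]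
      refine (cinv ?_).symm
      apply nrm1 hκ0
      rw [← norm_pow, ← map_pow, hb]
      have h1 := congrArg (τ.comp (algebraMap F L)) hβ
      rw [map_mul, map_one, IsCMField.complexEmbedding_complexConj, Complex.mul_conj,
        Complex.normSq_eq_norm_sq] at h1
      have h2 : ‖τ.comp (algebraMap F L) β‖ ^ 2 = 1 := by exact_mod_cast h1
      exact nrm1 (n := 2) (by norm_num) h2

end Pool.Agent.H10.RCN.K

namespace Pool.Agent.H10.RCN

open Polynomial

theorem pf_KUM : T_KUM := by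
  intro F _ _ _ κ z β hκ hz hβ hp
  have H : Irreducible (X ^ κ - C β : F[X]) := X_pow_sub_C_irreducible_of_prime hκ hp
  have : Fact (Irreducible (X ^ κ - C β : F[X])) := ⟨H⟩
  have hne : (primitiveRoots κ F).Nonempty := ⟨z, (mem_primitiveRoots hκ.pos).2 hz⟩
  have hspl : IsSplittingField F (AdjoinRoot (X ^ κ - C β : F[X])) (X ^ κ - C β) :=
    isSplittingField_AdjoinRoot_X_pow_sub_C hne H
  have hfin : Module.Finite F (AdjoinRoot (X ^ κ - C β : F[X])) :=
    IsSplittingField.finiteDimensional _ (X ^ κ - C β)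
  have hnf : NumberField (AdjoinRoot (X ^ κ - C β : F[X])) :=
    NumberField.of_module_finite F _
  have hβ0 : β ≠ 0 := left_ne_zero_of_mul_eq_one hβ
  have hb : (AdjoinRoot.root (X ^ κ - C β : F[X])) ^ κ =
      algebraMap F (AdjoinRoot (X ^ κ - C β : F[X])) β := root_X_pow_sub_C_pow κ β
  have hb0 : AdjoinRoot.root (X ^ κ - C β : F[X]) ≠ 0 := by
    intro h
    rw [h, zero_pow hκ.ne_zero] at hb
    exact hβ0 ((map_eq_zero _).1 hb.symm)
  have hβc : IsCMField.complexConj F β = β⁻¹ := (inv_eq_of_mul_eq_one_right hβ).symm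
  obtain ⟨σ, J, hE, hσ⟩ := K.aux (L := AdjoinRoot (X ^ κ - C β : F[X])) hκ hz hβ H hb hb0
    (AdjoinRoot.lift ((algebraMap F (AdjoinRoot (X ^ κ - C β : F[X]))).comp
      (IsCMField.complexConj F : F →+* F)) (AdjoinRoot.root (X ^ κ - C β : F[X]))⁻¹ (by
        rw [eval₂_sub, eval₂_pow, eval₂_X, eval₂_C, inv_pow, hb]
        simp only [RingHom.comp_apply, RingHom.coe_coe, hβc, map_inv₀, sub_self]))
    (fun x => AdjoinRoot.lift_of _) (AdjoinRoot.lift_root _) (by
      intro R _ f g h1 h2 x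
      have h3 : f = g := AdjoinRoot.ringHom_ext (RingHom.ext h1) h2
      rw [h3])
  exact ⟨_, _, hnf, _, σ, J, _, hE, hb, hσ⟩

end Pool.Agent.H10.RCN
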