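import Pool.Agent.H24.RCN.Targets

/-!
MP_4d5ac9_nt, module R94: Hilbert 94 for CM fields.
-/

set_option autoImplicit false

open NumberField Pool.Agent.H24.RCN

namespace Pool.Agent.H10.RCN

theorem cm {F L : Type} [Field F] [NumberField F] [Field L] [NumberField L] [Algebra F L]
    (A : Ideal (𝓞 F)) :
    Ideal.comap (algebraMap (𝓞 F) (𝓞 L)) (Ideal.map (algebraMap (𝓞 F) (𝓞 L)) A) = A :=
  Ideal.comap_map_eq_self_of_faithfullyFlat A

/-- complex conjugation on the subfield -/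
theorem jc {F L : Type} [Field F] [NumberField F] [IsCMField F] [Field L] [NumberField L]
    [Algebra F L] {κ : ℕ} {σ : L ≃ₐ[F] L} {J : L ≃+* L} (hE : Ext F L κ σ J) (x : F) :
    J (algebraMap F L x) = algebraMap F L (IsCMField.complexConj F x) := by
  obtain ⟨τ⟩ := (inferInstance : Nonempty (L →+* ℂ))
  apply τ.injective
  rw [hE.conj]
  have h := IsCMField.complexEmbedding_complexConj F (τ.comp (algebraMap F L)) x
  exact h.symm

theorem lif {K : Type} [Field K] [NumberField K] {x : K} (h : IsIntegral ℤ x) :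
    ∃ y : 𝓞 K, (y : K) = x := ⟨⟨x, h⟩, rfl⟩

theorem vm {K : Type} [Field K] [NumberField K] (x y : 𝓞 K) :
    ((x * y : 𝓞 K) : K) = (x : K) * (y : K) := map_mul (algebraMap (𝓞 K) K) x y

theorem v0 {K : Type} [Field K] [NumberField K] : ((0 : 𝓞 K) : K) = 0 :=
  map_zero (algebraMap (𝓞 K) K)

theorem v1 {K : Type} [Field K] [NumberField K] : ((1 : 𝓞 K) : K) = 1 :=
  map_one (algebraMap (𝓞 K) K)

theorem vp {K : Type} [Field K] [NumberField K] (x : 𝓞 K) (n : ℕ) :
    ((x ^ n : 𝓞 K) : K) = (x : K) ^ n := map_pow (algebraMap (𝓞 K) K) x n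

theorem va {F L : Type} [Field F] [NumberField F] [Field L] [NumberField L] [Algebra F L]
    (x : 𝓞 F) : ((algebraMap (𝓞 F) (𝓞 L) x : 𝓞 L) : L) = algebraMap F L (x : F) := rfl

theorem vc {K : Type} [Field K] [NumberField K] {x y : 𝓞 K} (h : x = y) : (x : K) = (y : K) := by
  rw [h]

theorem pf_R94 (heps : T_EPS) (hide : T_IDE) (hcls : T_CLS) (hnpr : T_NPR) : T_R94 := by
  intro F L _ _ _ _ _ _ κ σ J hκ hκ2 hE hU
  by_contra hh
  obtain ⟨a, ha0, hai, hJa, hun, hne⟩ := heps F L κ σ J hκ hκ2 hE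
  obtain ⟨hu0, hui, hui'⟩ := hun
  have hσi : ∀ x : L, IsIntegral ℤ x → IsIntegral ℤ (σ x) := fun x hx =>
    hx.map (σ.restrictScalars ℤ)
  have hJi : ∀ x : L, IsIntegral ℤ x → IsIntegral ℤ (J x) := fun x hx =>
    hx.map J.toRingHom.toIntAlgHom
  obtain ⟨a', ha'⟩ := lif hai
  have ha'0 : a' ≠ 0 := fun h => ha0 (by rw [← ha', h, v0])
  obtain ⟨A, hA⟩ := hide F L κ σ J hκ hE hU (Ideal.span {a'})
    (by simpa using ha'0) (by
      intro x y hxy hx
      rw [Ideal.mem_span_singleton'] at hx ⊢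
      obtain ⟨s, hs⟩ := hx
      obtain ⟨u', hu'⟩ := lif hui
      obtain ⟨s', hs'⟩ := lif (hσi s s.2)
      refine ⟨u' * s', ?_⟩
      apply RingOfIntegers.ext
      rw [hxy, ← hs]
      rw [vm, vm, vm, ha', hu', hs', map_mul]
      field_simp)
  have hA0 : A ≠ ⊥ := by
    rintro rfl
    rw [Ideal.map_bot] at hA
    exact ha'0 (by simpa using hA.symm)
  -- stability under complex conjugation
  have hAJ : ∀ x y : 𝓞 F, (y : F) = IsCMField.complexConj F (x : F) → x ∈ A → y ∈ A := by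
    intro x y hxy hx
    rw [← cm (L := L) A, hA, Ideal.mem_comap, Ideal.mem_span_singleton']
    have h1 : algebraMap (𝓞 F) (𝓞 L) x ∈ Ideal.span {a'} := hA ▸ Ideal.mem_map_of_mem _ hx
    rw [Ideal.mem_span_singleton'] at h1
    obtain ⟨s, hs⟩ := h1
    obtain ⟨s', hs'⟩ := lif (hJi s s.2)
    refine ⟨s', ?_⟩
    apply RingOfIntegers.ext
    have h2 : (algebraMap F L (x : F)) = (s : L) * a := by
      have := vc hs
      rw [vm, ha', va] at this
      exact this.symm
    rw [vm, hs', ha', va, hxy, ← jc hE, h2, map_mul, hJa]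
  -- the power is principal
  have hAκ : (A ^ κ).IsPrincipal := by
    have hni : IsIntegral ℤ (Algebra.norm F a) := Algebra.isIntegral_norm F hai
    obtain ⟨n', hn'⟩ := lif hni
    refine ⟨⟨n', ?_⟩⟩
    change A ^ κ = Ideal.span {n'}
    rw [← cm (L := L) (A ^ κ), ← cm (L := L) (Ideal.span {n'})]
    congr 1
    rw [Ideal.map_pow, hA, Ideal.span_singleton_pow, Ideal.map_span, Set.image_singleton,
      Ideal.span_singleton_eq_span_singleton]
    have hw : ∀ i : ℕ, Un ((σ ^ i) a / a) := by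
      intro i
      induction i with
      | zero => simpa [Un, ha0] using (isIntegral_one : IsIntegral ℤ (1 : L))
      | succ i ih =>
        obtain ⟨i1, i2, i3⟩ := ih
        have h1 : (σ ^ (i + 1)) a / a = σ ((σ ^ i) a / a) * (σ a / a) := by
          rw [pow_succ', AlgEquiv.mul_apply, map_div₀]
          have : σ a ≠ 0 := (map_ne_zero σ).2 ha0
          field_simp
        rw [h1]
        refine ⟨mul_ne_zero ((map_ne_zero σ).2 i1) hu0, (hσi _ i2).mul hui, ?_⟩
        rw [mul_inv, ← map_inv₀]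
        exact (hσi _ i3).mul hui'
    have hprod : Un (∏ i ∈ Finset.range κ, ((σ ^ i) a / a)) := by
      refine ⟨Finset.prod_ne_zero_iff.2 fun i _ => (hw i).1,
        IsIntegral.prod _ fun i _ => (hw i).2.1, ?_⟩
      rw [← Finset.prod_inv_distrib]
      exact IsIntegral.prod _ fun i _ => (hw i).2.2
    obtain ⟨p0, p1, p2⟩ := hprod
    obtain ⟨q1, hq1⟩ := lif p1
    obtain ⟨q2, hq2⟩ := lif p2
    refine ⟨⟨q1, q2, ?_, ?_⟩, ?_⟩
    · apply RingOfIntegers.ext
      rw [vm, hq1, hq2, v1]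
      exact mul_inv_cancel₀ p0
    · apply RingOfIntegers.ext
      rw [vm, hq1, hq2, v1]
      exact inv_mul_cancel₀ p0
    · apply RingOfIntegers.ext
      rw [vm, vp, ha', va, hq1, hn', (hnpr F L κ σ J hκ hE).1, Finset.prod_div_distrib, Finset.prod_const,
        Finset.card_range]
      field_simp
  obtain ⟨⟨g, hg⟩⟩ := hcls F κ A hκ hκ2 hh hA0 hAJ hAκ
  have hg : A = Ideal.span {g} := hg
  rw [hg, Ideal.map_span, Set.image_singleton, Ideal.span_singleton_eq_span_singleton] at hA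
  obtain ⟨w, hw⟩ := hA
  have hw2 : algebraMap F L (g : F) * ((w : 𝓞 L) : L) = a := by
    have := vc hw
    rw [vm, ha', va] at this
    exact this
  have hw0 : ((w : 𝓞 L) : L) ≠ 0 := by
    intro h
    rw [h, mul_zero] at hw2
    exact ha0 hw2.symm
  have hg0 : algebraMap F L (g : F) ≠ 0 := by
    intro h
    rw [h, zero_mul] at hw2
    exact ha0 hw2.symm
  have hwi : ((w : 𝓞 L) : L)⁻¹ = ((w⁻¹ : (𝓞 L)ˣ) : 𝓞 L) := by
    have h1 := vc w.mul_inv
    rw [vm, v1] at h1
    exact inv_eq_of_mul_eq_one_right h1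
  refine hne ((w : 𝓞 L) : L) ⟨hw0, (w : 𝓞 L).2, ?_⟩ ?_
  · rw [hwi]
    exact ((w⁻¹ : (𝓞 L)ˣ) : 𝓞 L).2
  · rw [← hw2, map_mul, AlgEquiv.commutes]
    field_simp

end Pool.Agent.H10.RCN
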